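import Mathlib

set_option autoImplicit false

/-!
Centralizers in free groups: they are cyclic, commuting is transitive on nontrivial elements, and
they are malnormal.
-/

namespace Pool.Agent.R629.FreeCent

universe u

/-- A free group with a nontrivial central element has at most one free generator. -/
theorem subsingleton_of_central {X : Type u} (z : FreeGroup X) (hz : z ≠ 1)
    (hc : ∀ g, z * g = g * z) : Subsingleton X := by
  classical
  by_contra hns
  rw [not_subsingleton_iff_nontrivial] at hns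
  have hL : z.toWord ≠ [] := fun h => hz (FreeGroup.toWord_eq_nil_iff.mp h)
  obtain ⟨s, L', hs⟩ := List.exists_cons_of_ne_nil hL
  obtain ⟨L'', t, ht⟩ := List.eq_nil_or_concat z.toWord |>.resolve_left hL
  obtain ⟨c, hcs⟩ := exists_ne s.1
  -- the letter `y`
  obtain ⟨b, hb⟩ : ∃ b : Bool, (c, b) ≠ (t.1, !t.2) := by
    by_cases h : (c, true) = (t.1, !t.2)
    · exact ⟨false, fun h' => by
        have h1 := congrArg Prod.snd h; have h2 := congrArg Prod.snd h'
        simp only at h1 h2; rw [← h1] at h2; exact Bool.noConfusion h2⟩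
    · exact ⟨true, h⟩
  have hred : FreeGroup.IsReduced z.toWord := FreeGroup.isReduced_toWord
  have h1 : FreeGroup.IsReduced (z.toWord ++ [(c, b)]) := by
    unfold FreeGroup.IsReduced
    rw [List.isChain_append]
    refine ⟨hred, List.isChain_singleton _, ?_⟩
    intro x hx y hy
    rw [ht, List.concat_eq_append, List.getLast?_append] at hx
    simp at hx hy
    subst hx; subst hy
    intro h
    by_contra h'
    apply hb
    ext
    · exact h.symm
    · cases hb1 : b <;> cases ht1 : t.2 <;> simp_all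
  have h2 : FreeGroup.IsReduced ((c, b) :: z.toWord) := by
    unfold FreeGroup.IsReduced
    rw [hs] at hred ⊢
    rw [List.isChain_cons_cons]
    refine ⟨fun h => absurd h hcs, hred⟩
  have e1 : FreeGroup.mk (z.toWord ++ [(c, b)]) = FreeGroup.mk ((c, b) :: z.toWord) := by
    have := hc (FreeGroup.mk [(c, b)])
    rw [← FreeGroup.mk_toWord (x := z), FreeGroup.mul_mk, FreeGroup.mul_mk] at this
    simpa using this
  have e2 := congrArg FreeGroup.toWord e1
  rw [FreeGroup.toWord_mk, FreeGroup.toWord_mk, h1.reduce_eq, h2.reduce_eq, hs] at e2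
  simp only [List.cons_append, List.cons.injEq] at e2
  exact hcs (congrArg Prod.fst e2.1).symm

theorem exists_zpow_of_subsingleton {X : Type u} [Subsingleton X] :
    ∃ a : FreeGroup X, ∀ g : FreeGroup X, ∃ k : ℤ, g = a ^ k := by
  rcases isEmpty_or_nonempty X with hX | ⟨⟨x⟩⟩
  · exact ⟨1, fun g => ⟨0, Subsingleton.elim _ _⟩⟩
  · refine ⟨FreeGroup.of x, fun g => ?_⟩
    have h : g ∈ Subgroup.closure (Set.range (FreeGroup.of : X → FreeGroup X)) := by
      rw [FreeGroup.closure_range_of]; trivial
    have h2 : Set.range (FreeGroup.of : X → FreeGroup X) = {FreeGroup.of x} := by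
      ext y; constructor
      · rintro ⟨x', rfl⟩; rw [Subsingleton.elim x' x]; rfl
      · rintro rfl; exact ⟨x, rfl⟩
    rw [h2, Subgroup.mem_closure_singleton] at h
    obtain ⟨k, hk⟩ := h
    exact ⟨k, hk.symm⟩

variable {F : Type u} [Group F] [IsFreeGroup F]

/-- The centralizer of a nontrivial element of a free group is cyclic. -/
theorem exists_root {g : F} (hg : g ≠ 1) :
    ∃ r : F, r * g = g * r ∧ ∀ h : F, h * g = g * h → ∃ k : ℤ, h = r ^ k := by
  let C : Subgroup F := Subgroup.centralizer {g}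
  have hmem : ∀ h : F, h ∈ C ↔ g * h = h * g := fun h => by
    simp [C, Subgroup.mem_centralizer_singleton_iff, eq_comm]
  let e := IsFreeGroup.toFreeGroup C
  let z : C := ⟨g, (hmem g).mpr rfl⟩
  have hz : e z ≠ 1 := by
    intro h
    apply hg
    have : z = 1 := by
      apply e.injective; rw [h, map_one]
    exact congrArg Subtype.val this
  have hcen : ∀ x, e z * x = x * e z := by
    intro x
    obtain ⟨y, rfl⟩ := e.surjective x
    rw [← map_mul, ← map_mul]
    congr 1
    ext
    exact (hmem y).mp y.2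
  have hsub := subsingleton_of_central (e z) hz hcen
  obtain ⟨a, ha⟩ := exists_zpow_of_subsingleton (X := IsFreeGroup.Generators C)
  refine ⟨(e.symm a : C), ((hmem _).mp (e.symm a).2).symm, fun h hh => ?_⟩
  obtain ⟨k, hk⟩ := ha (e ⟨h, (hmem h).mpr hh.symm⟩)
  refine ⟨k, ?_⟩
  have h2 : (⟨h, (hmem h).mpr hh.symm⟩ : C) = (e.symm a) ^ k := by
    apply e.injective
    rw [map_zpow, e.apply_symm_apply, hk]
  have h3 := congrArg Subtype.val h2
  simpa using h3

/-- Commuting is transitive on nontrivial elements. -/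
theorem comm_trans {g h k : F} (hh : h ≠ 1) (h1 : g * h = h * g) (h2 : h * k = k * h) :
    g * k = k * g := by
  obtain ⟨r, -, hr⟩ := exists_root hh
  obtain ⟨a, rfl⟩ := hr g h1
  obtain ⟨b, rfl⟩ := hr k h2.symm
  rw [← zpow_add, ← zpow_add, add_comm]

theorem torsionFree {g : F} (hg : g ≠ 1) {k : ℤ} (hk : g ^ k = 1) : k = 0 := by
  by_contra h
  let e := IsFreeGroup.toFreeGroup F
  have h1 : (e g) ^ k = 1 := by rw [← map_zpow, hk, map_one]
  have h2 : e g = 1 := by
    have := zpow_left_injective (G := FreeGroup (IsFreeGroup.Generators F)) h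
    apply this
    simpa using h1
  apply hg
  apply e.injective
  rw [h2, map_one]

/-- Centralizers of nontrivial elements are malnormal. -/
theorem malnormal {g x y : F} (hg : g ≠ 1) (hx : x ≠ 1) (hxg : x * g = g * x)
    (hyx : y⁻¹ * x * y * g = g * (y⁻¹ * x * y)) : y * g = g * y := by
  obtain ⟨r, hrg, hr⟩ := exists_root hg
  have hr1 : r ≠ 1 := by
    rintro rfl
    obtain ⟨k, hk⟩ := hr g rfl
    rw [one_zpow] at hk
    exact hg hk
  obtain ⟨a, ha⟩ := hr x hxg
  obtain ⟨b, hb⟩ := hr _ hyx
  have ha0 : a ≠ 0 := by rintro rfl; apply hx; simpa using ha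
  have hb0 : b ≠ 0 := by
    rintro rfl
    apply hx
    have h1 : y⁻¹ * x * y = 1 := by simpa using hb
    have h2 : x = y * (y⁻¹ * x * y) * y⁻¹ := by group
    rw [h2, h1]; group
  -- `y⁻¹ r y` commutes with `r ^ b`, hence is a power of `r`
  have hconj : ∀ k : ℤ, y⁻¹ * r ^ k * y = (y⁻¹ * r * y) ^ k := by
    intro k
    have := (MulAut.conj y⁻¹).toMonoidHom.map_zpow r k
    simpa [MulAut.conj_apply] using this
  have hconj' : ∀ k : ℤ, y * r ^ k * y⁻¹ = (y * r * y⁻¹) ^ k := by
    intro k
    simp
  have hrb : r ^ b ≠ 1 := fun h => hb0 (torsionFree hr1 h)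
  have hra : r ^ a ≠ 1 := fun h => ha0 (torsionFree hr1 h)
  have h3 : (y⁻¹ * r * y) ^ a = r ^ b := by rw [← hconj, ← ha, hb]
  have h4 : (y * r * y⁻¹) ^ b = r ^ a := by
    rw [← hconj', ← hb, ← ha]; group
  have hcr : ∀ w : F, w * r ^ b = r ^ b * w → ∃ k : ℤ, w = r ^ k := by
    intro w hw
    apply hr
    have h5 : r ^ b * g = g * r ^ b := by
      have h6 : Commute r g := hrg
      exact (h6.zpow_left b).eq
    exact comm_trans hrb hw h5
  have hcr' : ∀ w : F, w * r ^ a = r ^ a * w → ∃ k : ℤ, w = r ^ k := by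
    intro w hw
    apply hr
    have h5 : r ^ a * g = g * r ^ a := by
      have h6 : Commute r g := hrg
      exact (h6.zpow_left a).eq
    exact comm_trans hra hw h5
  obtain ⟨c, hc⟩ := hcr (y⁻¹ * r * y) (by
    rw [← h3, ← zpow_one_add, ← zpow_add_one, add_comm])
  obtain ⟨d, hd⟩ := hcr' (y * r * y⁻¹) (by
    rw [← h4, ← zpow_one_add, ← zpow_add_one, add_comm])
  -- `c * d = 1`
  have hcd : r ^ (c * d - 1) = 1 := by
    have h5 : r = y⁻¹ * (y * r * y⁻¹) * y := by group
    have h6 : r = r ^ (c * d) := by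
      calc r = y⁻¹ * (y * r * y⁻¹) * y := h5
        _ = y⁻¹ * r ^ d * y := by rw [hd]
        _ = (y⁻¹ * r * y) ^ d := hconj d
        _ = r ^ (c * d) := by rw [hc, ← zpow_mul]
    rw [zpow_sub, zpow_one, ← h6, mul_inv_cancel]
  have hcd' := torsionFree hr1 hcd
  have hc1 : c = 1 ∨ c = -1 := by
    have : c * d = 1 := by omega
    exact Int.eq_one_or_neg_one_of_mul_eq_one this
  have hyr : y * r = r * y := by
    rcases hc1 with rfl | rfl
    · have h7 : y⁻¹ * r * y = r := by simpa using hc
      have h8 : r * y = y * (y⁻¹ * r * y) := by group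
      rw [h8, h7]
    · exfalso
      have h7 : y⁻¹ * r * y = r⁻¹ := by simpa using hc
      -- `y ^ 2` commutes with `r`
      have h8 : y⁻¹ * r⁻¹ * y = r := by
        have : y⁻¹ * r⁻¹ * y = (y⁻¹ * r * y)⁻¹ := by group
        rw [this, h7, inv_inv]
      have h9 : (y * y) * r = r * (y * y) := by
        have h10 : y⁻¹ * (y⁻¹ * r * y) * y = r := by rw [h7, h8]
        calc (y * y) * r = (y * y) * (y⁻¹ * (y⁻¹ * r * y) * y) := by rw [h10]
          _ = r * (y * y) := by group
      have hy1 : y ≠ 1 := by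
        rintro rfl
        have h11 : r ^ (2 : ℤ) = 1 := by
          have h12 : r = r⁻¹ := by simpa using h7
          rw [zpow_two]; nth_rewrite 2 [h12]; exact mul_inv_cancel r
        have := torsionFree hr1 h11
        omega
      have hyy : y * y ≠ 1 := by
        intro h
        have h11 : y ^ (2 : ℤ) = 1 := by rw [zpow_two]; exact h
        have := torsionFree hy1 h11
        omega
      have h12 : y * r = r * y := comm_trans hyy (by group) h9
      have h13 : r ^ (2 : ℤ) = 1 := by
        have h14 : r = r⁻¹ := by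
          rw [← h7, mul_assoc, ← h12]; group
        rw [zpow_two]; nth_rewrite 2 [h14]; exact mul_inv_cancel r
      have := torsionFree hr1 h13
      omega
  exact comm_trans hr1 hyr hrg

/-- If `g` and `h` are nontrivial and commute, a homomorphism to a torsion-free group kills one
iff it kills the other. -/
theorem hom_eq_one {M : Type*} [Group M] (hM : ∀ (m : M) (k : ℤ), k ≠ 0 → m ^ k = 1 → m = 1)
    (χ : F →* M) {g h : F} (hg : g ≠ 1) (hgh : g * h = h * g) (hχ : χ g = 1) : χ h = 1 := by
  obtain ⟨r, -, hr⟩ := exists_root hg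
  obtain ⟨a, ha⟩ := hr g rfl
  obtain ⟨b, hb⟩ := hr h hgh.symm
  have ha0 : a ≠ 0 := by rintro rfl; apply hg; simpa using ha
  have h1 : χ r = 1 := by
    apply hM _ a ha0
    rw [← map_zpow, ← ha, hχ]
  rw [hb, map_zpow, h1, one_zpow]

end Pool.Agent.R629.FreeCent
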